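import Pool.Agent.KS6_36.IRC.Defs

set_option autoImplicit false

namespace Pool.Agent.KS6_36.IRC

lemma famA_good : famA.Good 6 10 := by
  constructor <;> decide +kernel

lemma famB_good : famB.Good 3 6 := by
  constructor <;> decide +kernel

lemma famC_good : famC.Good 2 3 := by
  constructor <;> decide +kernel

end Pool.Agent.KS6_36.IRC
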