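import Pool.Agent.KS6_36.IRC.Slide
import Pool.Agent.KS6_36.IRC.Check

/-!
# The IR-graph of a good family is a cycle
-/

set_option autoImplicit false

namespace Pool.Agent.KS6_36.IRC

open Finset Q107.IRG

lemma fin_sub_val {n : ℕ} (u v : Fin n) (hn : 2 ≤ n) :
    (u - v).val = 1 ↔ (v.val + 1) % n = u.val := by
  rw [Fin.sub_def]
  simp only
  have hu := u.isLt
  have hv := v.isLt
  rcases Nat.lt_or_ge u.val v.val with h | h
  · have e1 : (n - v.val + u.val) % n = n - v.val + u.val := Nat.mod_eq_of_lt (by omega)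
    rw [e1]
    by_cases h1 : v.val + 1 = n
    · rw [h1, Nat.mod_self]; omega
    · rw [Nat.mod_eq_of_lt (by omega : v.val + 1 < n)]; omega
  · have e1 : (n - v.val + u.val) % n = u.val - v.val := by
      have : n - v.val + u.val = (u.val - v.val) + n := by omega
      rw [this, Nat.add_mod_right, Nat.mod_eq_of_lt (by omega)]
    rw [e1]
    by_cases h1 : v.val + 1 = n
    · rw [h1, Nat.mod_self]; omega
    · rw [Nat.mod_eq_of_lt (by omega : v.val + 1 < n)]; omega

variable {F : Fam} {N : ℕ}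

/-- the index of the `j`-th triple -/
def idx (F : Fam) (N : ℕ) (hc : 0 < F.c) (s : ℕ) (j : ℕ) : Fin F.c × ZMod N :=
  (⟨j % F.c, Nat.mod_lt _ hc⟩, ((s * (j / F.c) : ℕ) : ZMod N))

lemma nxt_idx (hc : 0 < F.c) (s : ℕ)
    (hn1 : ∀ r : Fin F.c, ∀ h : r.val + 1 < F.c, F.nx r = (⟨r.val + 1, h⟩, 0))
    (hn2 : ∀ r : Fin F.c, r.val + 1 = F.c → F.nx r = (⟨0, hc⟩, (s : ℤ))) (j : ℕ) :
    nxt (idx F N hc s j) = idx F N hc s (j + 1) := by
  unfold nxt idx
  simp only
  have hlt := Nat.mod_lt j hc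
  rcases Nat.lt_or_ge (j % F.c + 1) F.c with h | h
  · rw [hn1 _ h]
    have e1 : (j + 1) % F.c = j % F.c + 1 := by
      rw [Nat.add_mod, Nat.mod_eq_of_lt (by omega : 1 < F.c), Nat.mod_eq_of_lt h]
    have e2 : (j + 1) / F.c = j / F.c := by
      have a1 := Nat.div_add_mod j F.c
      have a2 := Nat.div_add_mod (j + 1) F.c
      rw [e1] at a2
      have : F.c * ((j + 1) / F.c) = F.c * (j / F.c) := by omega
      exact Nat.eq_of_mul_eq_mul_left hc this
    ext
    · simp [e1]
    · simp [e2]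
  · have h' : j % F.c + 1 = F.c := by omega
    rw [hn2 _ h']
    have hd : F.c ∣ j + 1 := by
      have a1 := Nat.div_add_mod j F.c
      refine ⟨j / F.c + 1, ?_⟩
      rw [mul_add, mul_one]
      omega
    have e1 : (j + 1) % F.c = 0 := Nat.mod_eq_zero_of_dvd hd
    have e2 : (j + 1) / F.c = j / F.c + 1 := by
      have a1 := Nat.div_add_mod j F.c
      have a2 := Nat.div_add_mod (j + 1) F.c
      rw [e1] at a2
      have : F.c * ((j + 1) / F.c) = F.c * (j / F.c + 1) := by
        rw [mul_add, mul_one]; omega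
      exact Nat.eq_of_mul_eq_mul_left hc this
    ext
    · simp [e1]
    · simp only [e2]
      push_cast
      ring

lemma idx_top (hc : 0 < F.c) (s : ℕ) : idx F N hc s (F.c * N) = idx F N hc s 0 := by
  unfold idx
  ext
  · simp
  · simp [Nat.mul_div_cancel_left _ hc]

lemma idx_inj (hc : 0 < F.c) (s : ℕ) (hs : Nat.Coprime s N) {i j : ℕ} (hi : i < F.c * N)
    (hj : j < F.c * N) (h : idx F N hc s i = idx F N hc s j) : i = j := by
  unfold idx at h
  rw [Prod.mk.injEq, Fin.mk.injEq] at h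
  obtain ⟨h1, h2⟩ := h
  rw [ZMod.natCast_eq_natCast_iff] at h2
  have h3 : i / F.c ≡ j / F.c [MOD N] := by
    exact Nat.ModEq.cancel_left_of_coprime ((Nat.gcd_comm N s).trans hs) h2
  have hi' : i / F.c < N := Nat.div_lt_of_lt_mul hi
  have hj' : j / F.c < N := Nat.div_lt_of_lt_mul hj
  have h4 : i / F.c = j / F.c := Nat.ModEq.eq_of_lt_of_lt h3 hi' hj'
  rw [← Nat.div_add_mod i F.c, ← Nat.div_add_mod j F.c, h1, h4]

theorem cycle_iso {L Sp : ℤ} (g : F.Good L Sp) (hL : 0 < L) (hS : 0 ≤ Sp) (h6 : 6 * L < N)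
    (h2 : 2 * Sp + L < N) (h3 : 3 * Sp < N) (hc : 0 < F.c) (s : ℕ) (hs : Nat.Coprime s N)
    [NeZero N]
    (hn1 : ∀ r : Fin F.c, ∀ h : r.val + 1 < F.c, F.nx r = (⟨r.val + 1, h⟩, 0))
    (hn2 : ∀ r : Fin F.c, r.val + 1 = F.c → F.nx r = (⟨0, hc⟩, (s : ℤ))) :
    Nonempty (irGraph (gr F N) ≃g SimpleGraph.cycleGraph (F.c * N)) := by
  have hN : 6 < N := by omega
  have hn : 2 ≤ F.c * N := by nlinarith
  let ix : Fin (F.c * N) → Fin F.c × ZMod N := fun i => idx F N hc s i.val
  have hix : Function.Bijective ix := by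
    rw [Fintype.bijective_iff_injective_and_card]
    constructor
    · intro i j hij
      exact Fin.ext (idx_inj hc s hs i.isLt j.isLt hij)
    · rw [Fintype.card_fin, Fintype.card_prod, Fintype.card_fin, ZMod.card]
  have hnum := IRNum_eq g hL hS h6 h2 h3 hc
  let f : Fin (F.c * N) → IRSet (gr F N) := fun i =>
    ⟨T (ix i).1 (ix i).2, T_irr g hL hS h6 h3 h2 _ _, by rw [card_T g hS h3, hnum]⟩
  have hf : Function.Bijective f := by
    constructor
    · intro i j hij
      have h1 : (T (ix i).1 (ix i).2 : Finset (Vt F N)) = T (ix j).1 (ix j).2 :=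
        congrArg Subtype.val hij
      have h4 := T_inj g hS h3 h1
      exact hix.1 (Prod.ext h4.1 h4.2)
    · intro D
      obtain ⟨r, u, hD⟩ := classify g hL hS h6 h3 D.2.1 (by rw [D.2.2, hnum])
      obtain ⟨i, hi⟩ := hix.2 (r, u)
      refine ⟨i, Subtype.ext ?_⟩
      change T (ix i).1 (ix i).2 = D.1
      rw [hi, hD]
  let e : Fin (F.c * N) ≃ IRSet (gr F N) := Equiv.ofBijective f hf
  have hstep : ∀ i j : Fin (F.c * N), nxt (ix i) = ix j ↔ (i.val + 1) % (F.c * N) = j.val := by
    intro i j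
    have h5 : nxt (ix i) = idx F N hc s ((i.val + 1) % (F.c * N)) := by
      change nxt (idx F N hc s i.val) = _
      rw [nxt_idx hc s hn1 hn2]
      by_cases h1 : i.val + 1 = F.c * N
      · rw [h1, Nat.mod_self, idx_top]
      · rw [Nat.mod_eq_of_lt (by have := i.isLt; omega)]
    rw [h5]
    constructor
    · intro h6
      exact idx_inj hc s hs (Nat.mod_lt _ (by omega)) j.isLt h6
    · intro h6
      rw [h6]
  refine ⟨(RelIso.symm ⟨e, ?_⟩ : irGraph (gr F N) ≃g SimpleGraph.cycleGraph (F.c * N))⟩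
  intro i j
  rw [SimpleGraph.cycleGraph_adj', fin_sub_val _ _ hn, fin_sub_val _ _ hn]
  change Slide (gr F N) (T (ix i).1 (ix i).2) (T (ix j).1 (ix j).2) ↔ _
  rw [slide_iff g hL hS h6 h2 h3]
  change (nxt (ix i) = ix j ∨ nxt (ix j) = ix i) ↔ _
  rw [hstep, hstep]
  exact or_comm

/-- every cycle of length at least `73` is an IR-graph -/
theorem all_cycles (n : ℕ) (hn : 73 ≤ n) :
    ∃ (V : Type) (_ : Fintype V) (G : SimpleGraph V),
      Nonempty (irGraph G ≃g SimpleGraph.cycleGraph n) := by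
  rcases Nat.even_or_odd n with he | ho
  · by_cases h4 : 4 ∣ n
    · obtain ⟨N, rfl⟩ := h4
      haveI : NeZero N := ⟨by omega⟩
      exact ⟨Vt famB N, inferInstance, gr famB N,
        cycle_iso famB_good (by norm_num) (by norm_num) (by omega) (by omega) (by omega)
          (by decide) 1 (Nat.coprime_one_left N) (by decide) (by decide)⟩
    · by_cases h5 : 5 ∣ n
      · obtain ⟨N, rfl⟩ := h5
        haveI : NeZero N := ⟨by omega⟩
        exact ⟨Vt famC N, inferInstance, gr famC N,
          cycle_iso famC_good (by norm_num) (by norm_num) (by omega) (by omega) (by omega)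
            (by decide) 1 (Nat.coprime_one_left N) (by decide) (by decide)⟩
      · obtain ⟨N, hN⟩ := he
        have hN2 : n = 2 * N := by omega
        subst hN2
        haveI : NeZero N := ⟨by omega⟩
        refine ⟨Vt famA N, inferInstance, gr famA N,
          cycle_iso famA_good (by norm_num) (by norm_num) (by omega) (by omega) (by omega)
            (by decide) 10 ?_ (by decide) (by decide)⟩
        have c2 : Nat.Coprime 2 N := (Nat.Prime.coprime_iff_not_dvd Nat.prime_two).2 (by omega)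
        have c5 : Nat.Coprime 5 N := (Nat.Prime.coprime_iff_not_dvd Nat.prime_five).2 (by omega)
        have c10 : Nat.Coprime (2 * 5) N := Nat.Coprime.mul_left c2 c5
        exact c10
  · obtain ⟨k, hk⟩ : ∃ k, n = k + 2 := ⟨n - 2, by omega⟩
    subst hk
    exact ⟨ZMod (k + 2), inferInstance, cg (k + 2), Q107.IRG.cycle_iso k (by omega) ho⟩

end Pool.Agent.KS6_36.IRC
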