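import Mathlib
import Pool.Graph.R_pool_sql_team_seeded_3997aac3.Q107.IRG.CycleMain

/-!
# Families of graphs with a cyclic group of automorphisms whose IR-graph is one cycle

The vertices are the pairs `(x, a)` with `x` in `ZMod N` and `a` in `Fin t`.
-/

set_option autoImplicit false

namespace Pool.Agent.KS6_36.IRC

open Finset Q107.IRG

/-- the data of a family: `nb a` lists the non-neighbours of `(0, a)` as pairs (type, offset),
`C r` are the base triples, `nx r` is the class and the shift of the triple after `C r` -/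
structure Fam where
  t : ℕ
  c : ℕ
  nb : Fin t → List (Fin t × ℤ)
  C : Fin c → List (ℤ × Fin t)
  nx : Fin c → Fin c × ℤ

namespace Fam

variable (F : Fam)

/-- local relation (non-adjacency in the graph) -/
def adj (p q : ℤ × Fin F.t) : Prop := (q.2, q.1 - p.1) ∈ F.nb p.2

instance (p q : ℤ × Fin F.t) : Decidable (F.adj p q) := by unfold adj; infer_instance

/-- `q` belongs to the base triple `C r` shifted by `d` -/
def memS (r : Fin F.c) (d : ℤ) (q : ℤ × Fin F.t) : Prop := (q.1 - d, q.2) ∈ F.C r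

instance (r : Fin F.c) (d : ℤ) (q : ℤ × Fin F.t) : Decidable (F.memS r d q) := by
  unfold memS; infer_instance

/-- the three points are in one shifted base triple -/
def isT (p q s : ℤ × Fin F.t) : Prop :=
  ∃ r : Fin F.c, ∃ x ∈ F.C r, x.2 = p.2 ∧ F.memS r (p.1 - x.1) q ∧ F.memS r (p.1 - x.1) s

instance (p q s : ℤ × Fin F.t) : Decidable (F.isT p q s) := by unfold isT; infer_instance

/-- classification of the local irredundant triples -/
def TriOK : Prop :=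
  ∀ a : Fin F.t, ∀ e1 ∈ F.nb a, ∀ e2 ∈ F.nb e1.1,
    (e1.2 + e2.2, e2.1) ≠ ((0 : ℤ), a) →
    ∀ e3 ∈ F.nb a, ¬ F.adj (e3.2, e3.1) (e1.2 + e2.2, e2.1) →
    ∀ e4 ∈ F.nb e3.1, (e3.2 + e4.2, e4.1) ≠ ((0 : ℤ), a) →
    (e3.2 + e4.2, e4.1) ≠ (e1.2 + e2.2, e2.1) →
    ¬ F.adj (e1.2, e1.1) (e3.2 + e4.2, e4.1) →
    ∀ e5 ∈ F.nb e2.1, F.adj (e1.2 + e2.2 + e5.2, e5.1) (e3.2 + e4.2, e4.1) →
    ¬ F.adj (e1.2 + e2.2 + e5.2, e5.1) (0, a) →
    F.isT (0, a) (e1.2 + e2.2, e2.1) (e3.2 + e4.2, e4.1)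

instance : Decidable F.TriOK := by unfold TriOK; infer_instance

/-- two shifted base triples with two common points are equal, consecutive, or the two other
points are not adjacent in the graph -/
def SlideOK : Prop :=
  ∀ r : Fin F.c, ∀ x ∈ F.C r, ∀ z1 ∈ F.C r, z1 ≠ x → ∀ z2 ∈ F.C r, z2 ≠ x → z2 ≠ z1 →
    ∀ r' : Fin F.c, ∀ c1 ∈ F.C r', c1.2 = z1.2 → F.memS r' (z1.1 - c1.1) z2 →
    (r' = r ∧ z1.1 - c1.1 = 0) ∨ F.nx r = (r', z1.1 - c1.1) ∨ F.nx r' = (r, c1.1 - z1.1) ∨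
      ∀ y ∈ F.C r', (y.1 + (z1.1 - c1.1), y.2) ≠ z1 → (y.1 + (z1.1 - c1.1), y.2) ≠ z2 →
        F.adj x (y.1 + (z1.1 - c1.1), y.2)

instance : Decidable F.SlideOK := by unfold SlideOK; infer_instance

/-- different shifted base triples are different -/
def InjOK : Prop :=
  ∀ r : Fin F.c, ∀ z1 ∈ F.C r, ∀ r' : Fin F.c, ∀ c1 ∈ F.C r', c1.2 = z1.2 →
    (∀ z ∈ F.C r, F.memS r' (z1.1 - c1.1) z) → r' = r ∧ z1.1 - c1.1 = 0

instance : Decidable F.InjOK := by unfold InjOK; infer_instance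

/-- inner condition of `FourOK` -/
def FourIn (z1 z2 z3 : ℤ × Fin F.t) (r' : Fin F.c) (d : ℤ) : Prop :=
  ∀ y ∈ F.C r', (y.1 + d, y.2) ≠ z1 → (y.1 + d, y.2) ≠ z2 → (y.1 + d, y.2) ≠ z3 →
      ¬ (F.isT z2 z3 (y.1 + d, y.2) ∧ F.isT z1 z3 (y.1 + d, y.2))

instance (z1 z2 z3 : ℤ × Fin F.t) (r' : Fin F.c) (d : ℤ) : Decidable (F.FourIn z1 z2 z3 r' d) := by
  unfold FourIn; infer_instance

/-- no four points all of whose triples are shifted base triples -/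
def FourOK : Prop :=
  ∀ r : Fin F.c, ∀ z1 ∈ F.C r, ∀ z2 ∈ F.C r, z2 ≠ z1 → ∀ z3 ∈ F.C r, z3 ≠ z1 → z3 ≠ z2 →
    ∀ r' : Fin F.c, ∀ c1 ∈ F.C r', c1.2 = z1.2 → F.memS r' (z1.1 - c1.1) z2 →
      F.FourIn z1 z2 z3 r' (z1.1 - c1.1)

instance : Decidable F.FourOK := by unfold FourOK; infer_instance

/-- inner condition of `StepOK`: the triple `C r` without `x` and with `y` shifted by `d` is the
triple `C r'` shifted by `d` -/
def StepIn (r r' : Fin F.c) (d : ℤ) (x y : ℤ × Fin F.t) : Prop :=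
  ¬ F.memS r' d x ∧ (y.1 + d, y.2) ∉ F.C r ∧ ¬ F.adj x (y.1 + d, y.2) ∧
    (∀ z ∈ F.C r', z = y ∨ (z.1 + d, z.2) ∈ F.C r) ∧ (∀ z ∈ F.C r, z = x ∨ F.memS r' d z)

instance (r r' : Fin F.c) (d : ℤ) (x y : ℤ × Fin F.t) : Decidable (F.StepIn r r' d x y) := by
  unfold StepIn; infer_instance

/-- consecutive triples are joined by an exchange -/
def StepOK : Prop :=
  ∀ r : Fin F.c, ∃ x ∈ F.C r, ∃ y ∈ F.C (F.nx r).1, F.StepIn r (F.nx r).1 (F.nx r).2 x y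

instance : Decidable F.StepOK := by unfold StepOK; infer_instance

/-- the base triples are irredundant -/
def IrrOK : Prop :=
  ∀ r : Fin F.c, ∀ z ∈ F.C r, ∃ z' ∈ F.C r, ∃ e ∈ F.nb z'.2,
    ¬ F.adj z (z'.1 + e.2, e.1) ∧ ∀ z'' ∈ F.C r, z'' ≠ z → F.adj z'' (z'.1 + e.2, e.1)

instance : Decidable F.IrrOK := by unfold IrrOK; infer_instance

/-- all the finite conditions -/
structure Good (L Sp : ℤ) : Prop where
  symm : ∀ a, ∀ e ∈ F.nb a, (a, -e.2) ∈ F.nb e.1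
  bd : ∀ a, ∀ e ∈ F.nb a, -L ≤ e.2 ∧ e.2 ≤ L
  noloop : ∀ a, ∀ e ∈ F.nb a, e ≠ (a, 0)
  len : ∀ r, (F.C r).length = 3
  nodup : ∀ r, (F.C r).Nodup
  span : ∀ r, ∀ x ∈ F.C r, ∀ y ∈ F.C r, x.1 - y.1 ≤ Sp
  irr : F.IrrOK
  tri : F.TriOK
  slide : F.SlideOK
  inj : F.InjOK
  four : F.FourOK
  step : F.StepOK

end Fam

/-- one type of vertices, offsets `1, 4, 6`, up to sign; two classes of triples, shift `10` -/
def famA : Fam where
  t := 1
  c := 2
  nb := ![[(0, -6), (0, -4), (0, -1), (0, 1), (0, 4), (0, 6)]]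
  C := ![[(0, 0), (3, 0), (10, 0)],
    [(3, 0), (10, 0), (13, 0)]]
  nx := ![(1, 0), (0, 10)]

/-- two types of vertices, four classes of triples, shift `1` -/
def famB : Fam where
  t := 2
  c := 4
  nb := ![[(0, -2), (0, 2), (1, -2), (1, 3)],
    [(0, -3), (0, 2), (1, -3), (1, 3)]]
  C := ![[(0, 0), (1, 1), (5, 0)],
    [(0, 0), (1, 1), (6, 1)],
    [(1, 1), (6, 0), (6, 1)],
    [(1, 0), (6, 0), (6, 1)]]
  nx := ![(1, 0), (2, 0), (3, 0), (0, 1)]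

/-- three types of vertices, five classes of triples, shift `1` -/
def famC : Fam where
  t := 3
  c := 5
  nb := ![[(0, -1), (0, 1), (1, -1), (1, 1), (2, -1), (2, 1)],
    [(0, -1), (0, 1), (1, -1), (1, 1), (2, -1), (2, 2)],
    [(0, -1), (0, 1), (1, -2), (1, 1), (2, -1), (2, 1)]]
  C := ![[(0, 0), (1, 2), (3, 2)],
    [(0, 1), (1, 2), (3, 2)],
    [(-2, 1), (0, 1), (1, 2)],
    [(-2, 1), (0, 1), (1, 0)],
    [(0, 1), (1, 0), (2, 2)]]
  nx := ![(1, 0), (2, 0), (3, 0), (4, 0), (0, 1)]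

end Pool.Agent.KS6_36.IRC
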