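import Pool.Agent.KS6_36.IRC.Defs

/-!
# From the finite conditions to the graphs on `ZMod N × Fin t`
-/

set_option autoImplicit false

namespace Pool.Agent.KS6_36.IRC

open Finset Q107.IRG

/-- the vertices -/
abbrev Vt (F : Fam) (N : ℕ) : Type := ZMod N × Fin F.t

variable {F : Fam} {N : ℕ}

/-- non-adjacency -/
def H (v w : Vt F N) : Prop := ∃ e ∈ F.nb v.2, w = (v.1 + (e.2 : ZMod N), e.1)

/-- the graph: two different vertices are adjacent unless they are in the relation `H` -/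
def gr (F : Fam) (N : ℕ) : SimpleGraph (Vt F N) where
  Adj v w := v ≠ w ∧ ¬ H v w ∧ ¬ H w v
  symm := ⟨fun _ _ h => ⟨h.1.symm, h.2.2, h.2.1⟩⟩
  loopless := ⟨fun _ h => h.1 rfl⟩

/-- the vertex at the point `p` relative to `u` -/
def ch (u : ZMod N) (p : ℤ × Fin F.t) : Vt F N := (u + (p.1 : ZMod N), p.2)

lemma cast_inj {a b : ℤ} (h : a - b < N) (h' : b - a < N) (hab : (a : ZMod N) = (b : ZMod N)) :
    a = b := by
  rw [ZMod.intCast_eq_intCast_iff_dvd_sub] at hab
  obtain ⟨k, hk⟩ := hab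
  rcases lt_trichotomy k 0 with hk0 | hk0 | hk0
  · nlinarith
  · rw [hk0] at hk
    linarith
  · nlinarith

lemma ch_inj {u : ZMod N} {p q : ℤ × Fin F.t} (h : p.1 - q.1 < N) (h' : q.1 - p.1 < N)
    (hpq : (ch u p : Vt F N) = ch u q) : p = q := by
  unfold ch at hpq
  rw [Prod.mk.injEq] at hpq
  exact Prod.ext (cast_inj h h' (add_left_cancel hpq.1)) hpq.2

lemma ch_shift (u : ZMod N) (d : ℤ) (p : ℤ × Fin F.t) :
    (ch (u + (d : ZMod N)) p : Vt F N) = ch u (p.1 + d, p.2) := by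
  unfold ch
  ext
  · push_cast; ring
  · rfl

section

variable {L Sp : ℤ} (g : F.Good L Sp) (hL : 0 < L) (hS : 0 ≤ Sp) (h6 : 6 * L < N)
  (h2 : 2 * Sp + L < N) (h3 : 3 * Sp < N)

include g

lemma H_symm {v w : Vt F N} (h : H v w) : H w v := by
  obtain ⟨e, he, rfl⟩ := h
  refine ⟨(v.2, -e.2), g.symm _ e he, ?_⟩
  ext
  · push_cast; ring
  · rfl

lemma H_ch {u : ZMod N} {p q : ℤ × Fin F.t} (h : p.1 - q.1 + L < N) (h' : q.1 - p.1 + L < N) :
    H (ch u p : Vt F N) (ch u q) ↔ F.adj p q := by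
  constructor
  · rintro ⟨e, he, heq⟩
    unfold ch at heq
    rw [Prod.mk.injEq] at heq
    obtain ⟨b1, b2⟩ := g.bd _ e he
    have h1 : q.1 = p.1 + e.2 := by
      apply cast_inj (N := N) (by omega) (by omega)
      have := heq.1
      push_cast
      have h5 : u + (q.1 : ZMod N) = u + ((p.1 : ZMod N) + (e.2 : ZMod N)) := by
        rw [this]; ring
      exact add_left_cancel h5
    unfold Fam.adj
    have h2 : (q.2, q.1 - p.1) = e := Prod.ext heq.2 (by simp [h1])
    rw [h2]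
    exact he
  · intro h1
    refine ⟨(q.2, q.1 - p.1), h1, ?_⟩
    unfold ch
    ext
    · push_cast; ring
    · rfl

include hL h6

lemma H_irrefl (v : Vt F N) : ¬ H v v := by
  rintro ⟨e, he, heq⟩
  have h1 := congrArg Prod.fst heq
  have h2 := congrArg Prod.snd heq
  simp only at h1 h2
  obtain ⟨b1, b2⟩ := g.bd _ e he
  have h3 : (e.2 : ZMod N) = ((0 : ℤ) : ZMod N) := by
    have h4 : v.1 + (0 : ZMod N) = v.1 + (e.2 : ZMod N) := by rw [add_zero]; exact h1
    have h5 := add_left_cancel h4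
    push_cast
    exact h5.symm
  have h4 : e.2 = 0 := cast_inj (N := N) (by omega) (by omega) h3
  exact g.noloop _ e he (Prod.ext h2.symm h4)

lemma adj_iff {v w : Vt F N} : (gr F N).Adj v w ↔ v ≠ w ∧ ¬ H v w := by
  constructor
  · intro h
    exact ⟨h.1, h.2.1⟩
  · intro h
    exact ⟨h.1, h.2, fun h' => h.2 (H_symm g h')⟩

lemma nbr_iff {v w : Vt F N} : (w = v ∨ (gr F N).Adj v w) ↔ ¬ H v w := by
  constructor
  · rintro (rfl | h)
    · exact H_irrefl g hL h6 _
    · exact h.2.1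
  · intro h
    by_cases hvw : w = v
    · exact Or.inl hvw
    · exact Or.inr ((adj_iff g hL h6).2 ⟨fun h' => hvw h'.symm, h⟩)

lemma irr_iff {D : Finset (Vt F N)} :
    IsIrredundant (gr F N) D ↔ ∀ v ∈ D, ∃ w, ¬ H v w ∧ ∀ u ∈ D, u ≠ v → H u w := by
  unfold IsIrredundant
  refine forall_congr' fun v => forall_congr' fun _ => exists_congr fun w => ?_
  rw [nbr_iff g hL h6]
  refine and_congr_right fun _ => forall_congr' fun u => forall_congr' fun _ =>
    forall_congr' fun _ => ?_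
  rw [nbr_iff g hL h6, not_not]

end

/-- the triples -/
def T (r : Fin F.c) (u : ZMod N) : Finset (Vt F N) := ((F.C r).map (ch u)).toFinset

lemma mem_T {r : Fin F.c} {u : ZMod N} {x : Vt F N} :
    x ∈ T r u ↔ ∃ z ∈ F.C r, ch u z = x := by
  unfold T
  rw [List.mem_toFinset, List.mem_map]

lemma mem_T_of_memS {r : Fin F.c} {u : ZMod N} {d : ℤ} {q : ℤ × Fin F.t} (h : F.memS r d q) :
    (ch u q : Vt F N) ∈ T r (u + (d : ZMod N)) := by
  rw [mem_T]
  refine ⟨_, h, ?_⟩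
  rw [ch_shift]
  congr 1
  ext
  · simp
  · rfl

lemma loc {u u' : ZMod N} {p c1 : ℤ × Fin F.t} (h : (ch u' c1 : Vt F N) = ch u p) :
    c1.2 = p.2 ∧ u' = u + ((p.1 - c1.1 : ℤ) : ZMod N) := by
  unfold ch at h
  rw [Prod.mk.injEq] at h
  refine ⟨h.2, ?_⟩
  push_cast
  calc u' = u' + (c1.1 : ZMod N) - (c1.1 : ZMod N) := by ring
    _ = u + (p.1 : ZMod N) - (c1.1 : ZMod N) := by rw [h.1]
    _ = _ := by ring

lemma list3 {α : Type*} {l : List α} (h : l.length = 3) (hn : l.Nodup) {x : α} (hx : x ∈ l) :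
    ∃ z1 ∈ l, ∃ z2 ∈ l, z1 ≠ x ∧ z2 ≠ x ∧ z2 ≠ z1 ∧ ∀ z ∈ l, z = x ∨ z = z1 ∨ z = z2 := by
  match l, h with
  | [a, b, c], _ =>
    simp only [List.nodup_cons, List.mem_cons, List.not_mem_nil, or_false, not_or,
      not_false_eq_true, List.nodup_nil, and_true] at hn
    obtain ⟨⟨hab, hac⟩, hbc⟩ := hn
    simp only [List.mem_cons, List.not_mem_nil, or_false] at hx
    rcases hx with rfl | rfl | rfl
    · exact ⟨b, by simp, c, by simp, Ne.symm hab, Ne.symm hac, Ne.symm hbc, by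
        intro z hz; simpa using hz⟩
    · exact ⟨a, by simp, c, by simp, hab, Ne.symm hbc, Ne.symm hac, by
        intro z hz; simp at hz; tauto⟩
    · exact ⟨a, by simp, b, by simp, hac, hbc, Ne.symm hab, by
        intro z hz; simp at hz; tauto⟩

section

variable {L Sp : ℤ} (g : F.Good L Sp) (hL : 0 < L) (hS : 0 ≤ Sp) (h6 : 6 * L < N)
  (h2 : 2 * Sp + L < N) (h3 : 3 * Sp < N)

include g

lemma loc2 {u : ZMod N} {r' : Fin F.c} {c1 : ℤ × Fin F.t} (hc1 : c1 ∈ F.C r') {p1 : ℤ}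
    {q : ℤ × Fin F.t} (hq : (ch u q : Vt F N) ∈ T r' (u + ((p1 - c1.1 : ℤ) : ZMod N)))
    (b1 : q.1 - p1 + Sp < N) (b2 : p1 - q.1 + Sp < N) : F.memS r' (p1 - c1.1) q := by
  rw [mem_T] at hq
  obtain ⟨c2, hc2, h⟩ := hq
  rw [ch_shift] at h
  have s1 := g.span r' c1 hc1 c2 hc2
  have s2 := g.span r' c2 hc2 c1 hc1
  have h4 := ch_inj (by simp only; omega) (by simp only; omega) h
  unfold Fam.memS
  rw [← h4]
  simpa using hc2

include hS h3

lemma card_T (r : Fin F.c) (u : ZMod N) : (T r u : Finset (Vt F N)).card = 3 := by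
  unfold T
  rw [List.toFinset_card_of_nodup, List.length_map, g.len]
  refine (g.nodup r).map_on ?_
  intro x hx y hy hxy
  have s1 := g.span r x hx y hy
  have s2 := g.span r y hy x hx
  exact ch_inj (by omega) (by omega) hxy

lemma T_inj {r r' : Fin F.c} {u u' : ZMod N} (h : (T r u : Finset (Vt F N)) = T r' u') :
    r = r' ∧ u = u' := by
  obtain ⟨z1, hz1⟩ : ∃ z1, z1 ∈ F.C r := by
    have := g.len r
    match hl : F.C r, this with
    | a :: _, _ => exact ⟨a, by simp⟩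
  have hm : (ch u z1 : Vt F N) ∈ T r' u' := by rw [← h, mem_T]; exact ⟨z1, hz1, rfl⟩
  obtain ⟨c1, hc1, h1⟩ := mem_T.1 hm
  obtain ⟨ht, hu⟩ := loc h1
  obtain ⟨hr, hd⟩ := g.inj r z1 hz1 r' c1 hc1 ht (by
    intro z hz
    have hm2 : (ch u z : Vt F N) ∈ T r' u' := by rw [← h, mem_T]; exact ⟨z, hz, rfl⟩
    rw [hu] at hm2
    have s1 := g.span r z hz z1 hz1
    have s2 := g.span r z1 hz1 z hz
    exact loc2 g hc1 hm2 (by omega) (by omega))
  refine ⟨hr.symm, ?_⟩
  rw [hu, hd]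
  simp

include hL h6

lemma T_irr (h2 : 2 * Sp + L < N) (r : Fin F.c) (u : ZMod N) :
    IsIrredundant (gr F N) (T r u) := by
  rw [irr_iff g hL h6]
  intro v hv
  obtain ⟨z, hz, rfl⟩ := mem_T.1 hv
  obtain ⟨z', hz', e, he, h4, h5⟩ := g.irr r z hz
  obtain ⟨b1, b2⟩ := g.bd _ e he
  have s1 := g.span r z hz z' hz'
  have s2 := g.span r z' hz' z hz
  refine ⟨ch u (z'.1 + e.2, e.1), ?_, ?_⟩
  · rw [H_ch g (by simp only; omega) (by simp only; omega)]
    exact h4
  · intro w hw hne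
    obtain ⟨z'', hz'', rfl⟩ := mem_T.1 hw
    have s3 := g.span r z'' hz'' z' hz'
    have s4 := g.span r z' hz' z'' hz''
    rw [H_ch g (by simp only; omega) (by simp only; omega)]
    exact h5 z'' hz'' (fun h => hne (by rw [h]))

/-- the irredundant triples -/
lemma classify {D : Finset (Vt F N)} (hD : IsIrredundant (gr F N) D) (hc : D.card = 3) :
    ∃ r u, D = T r u := by
  rw [irr_iff g hL h6] at hD
  obtain ⟨v1, v2, v3, h12, h13, h23, rfl⟩ := Finset.card_eq_three.1 hc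
  obtain ⟨w1, n1, m1⟩ := hD v1 (by simp)
  obtain ⟨w2, n2, m2⟩ := hD v2 (by simp)
  obtain ⟨w3, n3, m3⟩ := hD v3 (by simp)
  have a12 := m1 v2 (by simp) h12.symm
  have a13 := m1 v3 (by simp) h13.symm
  have a21 := m2 v1 (by simp) h12
  have a23 := m2 v3 (by simp) h23.symm
  have a31 := m3 v1 (by simp) h13
  have a32 := m3 v2 (by simp) h23
  clear m1 m2 m3 hD
  obtain ⟨u, hu⟩ : ∃ u, u = v1.1 := ⟨_, rfl⟩
  obtain ⟨a, ha⟩ : ∃ a, a = v1.2 := ⟨_, rfl⟩
  have hv1 : v1 = ch u (0, a) := by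
    unfold ch
    ext
    · simp [hu]
    · simp [ha]
  obtain ⟨e1, he1, hw3⟩ := a31
  obtain ⟨e3, he3, hw2⟩ := a21
  rw [← ha] at he1 he3
  have hw3' : w3 = ch u (e1.2, e1.1) := by rw [hw3]; unfold ch; rw [hu]
  have hw2' : w2 = ch u (e3.2, e3.1) := by rw [hw2]; unfold ch; rw [hu]
  obtain ⟨e2, he2, hv2⟩ := H_symm g a32
  have hv2' : v2 = ch u (e1.2 + e2.2, e2.1) := by
    rw [hv2, hw3']; unfold ch; ext
    · push_cast; ring
    · rfl
  rw [hw3'] at he2
  change e2 ∈ F.nb e1.1 at he2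
  obtain ⟨e4, he4, hv3⟩ := H_symm g a23
  have hv3' : v3 = ch u (e3.2 + e4.2, e4.1) := by
    rw [hv3, hw2']; unfold ch; ext
    · push_cast; ring
    · rfl
  rw [hw2'] at he4
  change e4 ∈ F.nb e3.1 at he4
  obtain ⟨e5, he5, hw1⟩ := a12
  have hw1' : w1 = ch u (e1.2 + e2.2 + e5.2, e5.1) := by
    rw [hw1, hv2']; unfold ch; ext
    · push_cast; ring
    · rfl
  rw [hv2'] at he5
  change e5 ∈ F.nb e2.1 at he5
  obtain ⟨b1, b1'⟩ := g.bd _ e1 he1
  obtain ⟨b2, b2'⟩ := g.bd _ e2 he2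
  obtain ⟨b3, b3'⟩ := g.bd _ e3 he3
  obtain ⟨b4, b4'⟩ := g.bd _ e4 he4
  obtain ⟨b5, b5'⟩ := g.bd _ e5 he5
  have key := g.tri a e1 he1 e2 he2 (by
      intro h
      apply h12
      rw [hv1, hv2', h]) e3 he3 (by
      intro h
      apply n2
      apply H_symm g
      rw [hw2', hv2', H_ch g (by simp only; omega) (by simp only; omega)]
      exact h) e4 he4 (by
      intro h
      apply h13
      rw [hv1, hv3', h]) (by
      intro h
      apply h23
      rw [hv3', hv2', h]) (by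
      intro h
      apply n3
      apply H_symm g
      rw [hw3', hv3', H_ch g (by simp only; omega) (by simp only; omega)]
      exact h) e5 he5 (by
      have h := H_symm g a13
      rw [hw1', hv3', H_ch g (by simp only; omega) (by simp only; omega)] at h
      exact h) (by
      intro h
      apply n1
      apply H_symm g
      rw [hw1', hv1, H_ch g (by simp only; omega) (by simp only; omega)]
      exact h)
  obtain ⟨r, x, hx, hxa, m2, m3⟩ := key
  refine ⟨r, u + (((0 : ℤ) - x.1 : ℤ) : ZMod N), ?_⟩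
  apply Finset.eq_of_subset_of_card_le
  · intro w hw
    simp only [mem_insert, mem_singleton] at hw
    rcases hw with rfl | rfl | rfl
    · rw [mem_T]
      refine ⟨x, hx, ?_⟩
      rw [ch_shift, hv1]
      congr 1
      ext
      · simp
      · simp [hxa]
    · rw [hv2']
      exact mem_T_of_memS m2
    · rw [hv3']
      exact mem_T_of_memS m3
  · rw [card_T g hS h3, hc]

end

end Pool.Agent.KS6_36.IRC
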