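import Pool.Agent.KS6_36.IRC.Main

/-!
# Exchanges between the triples
-/

set_option autoImplicit false

namespace Pool.Agent.KS6_36.IRC

open Finset Q107.IRG

variable {F : Fam} {N : ℕ}

/-- the triple after the triple with index `k` -/
def nxt (k : Fin F.c × ZMod N) : Fin F.c × ZMod N :=
  ((F.nx k.1).1, k.2 + ((F.nx k.1).2 : ZMod N))

section

variable {L Sp : ℤ} (g : F.Good L Sp) (hL : 0 < L) (hS : 0 ≤ Sp) (h6 : 6 * L < N)
  (h2 : 2 * Sp + L < N) (h3 : 3 * Sp < N)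

include g hL hS h6 h2 h3

lemma step (r : Fin F.c) (u : ZMod N) :
    Slide (gr F N) (T r u) (T (F.nx r).1 (u + ((F.nx r).2 : ZMod N))) := by
  obtain ⟨x, hx, y, hy, s1, s2, s3, s4, s5⟩ := g.step r
  obtain ⟨d, hd⟩ : ∃ d, d = (F.nx r).2 := ⟨_, rfl⟩
  obtain ⟨r', hr'⟩ : ∃ r', r' = (F.nx r).1 := ⟨_, rfl⟩
  rw [← hd] at s1 s2 s3 s4 s5 ⊢
  rw [← hr'] at s1 s4 s5 hy ⊢
  -- a common point
  obtain ⟨z1, hz1, _, _, hzx, _, _, _⟩ := list3 (g.len r) (g.nodup r) hx
  have hz1' : (z1.1 - d, z1.2) ∈ F.C r' := by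
    rcases s5 z1 hz1 with h | h
    · exact absurd h hzx
    · exact h
  have q1 := g.span r' y hy _ hz1'
  have q2 := g.span r' _ hz1' y hy
  have q3 := g.span r x hx z1 hz1
  have q4 := g.span r z1 hz1 x hx
  simp only at q1 q2 q3 q4
  refine ⟨ch u x, mem_T.2 ⟨x, hx, rfl⟩, ch (u + (d : ZMod N)) y, mem_T.2 ⟨y, hy, rfl⟩, ?_, ?_, ?_⟩
  · rw [ch_shift]
    intro h
    have := ch_inj (by simp only; omega) (by simp only; omega) h
    apply s2
    rw [this]
    exact hx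
  · rw [adj_iff g hL h6, ch_shift, H_ch g (by simp only; omega) (by simp only; omega)]
    refine ⟨?_, s3⟩
    intro h
    have := ch_inj (by simp only; omega) (by simp only; omega) h
    apply s2
    rw [← this]
    exact hx
  · ext w
    simp only [Finset.mem_coe, Set.mem_union, Set.mem_sdiff, Set.mem_singleton_iff]
    constructor
    · intro hw
      obtain ⟨z, hz, rfl⟩ := mem_T.1 hw
      rcases s4 z hz with h | h
      · right
        rw [h]
      · left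
        rw [ch_shift]
        refine ⟨mem_T.2 ⟨_, h, rfl⟩, ?_⟩
        intro h'
        have e1 := g.span r _ h x hx
        have e2 := g.span r x hx _ h
        have := ch_inj (by simp only at *; omega) (by simp only at *; omega) h'
        apply s1
        unfold Fam.memS
        rw [← this]
        simpa using hz
    · rintro (⟨hw, hne⟩ | rfl)
      · obtain ⟨z, hz, rfl⟩ := mem_T.1 hw
        rcases s5 z hz with h | h
        · exact absurd (by rw [h]) hne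
        · exact mem_T_of_memS h
      · exact mem_T.2 ⟨y, hy, rfl⟩

lemma slide_imp {r r' : Fin F.c} {u u' : ZMod N}
    (h : Slide (gr F N) (T r u) (T r' u')) :
    nxt (r, u) = (r', u') ∨ nxt (r', u') = (r, u) := by
  obtain ⟨x0, hx0, v0, hv0, hne, hadj, hset⟩ := h
  have hm := slide_mem hset
  have hvD : v0 ∉ (T r u : Finset (Vt F N)) := by
    intro hvD
    have h1 : (T r' u' : Finset (Vt F N)) ⊆ (T r u).erase x0 := by
      intro x hx
      rw [Finset.mem_erase]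
      rcases (hm x).1 hx with h2 | h2
      · exact ⟨h2.2, h2.1⟩
      · rw [h2]
        exact ⟨hne, hvD⟩
    have h2 := Finset.card_le_card h1
    have h3' := Finset.card_erase_lt_of_mem hx0
    rw [card_T g hS h3] at h2 h3'
    omega
  obtain ⟨x, hx, rfl⟩ := mem_T.1 hx0
  obtain ⟨z1, hz1, z2, hz2, n1, n2, n12, hall⟩ := list3 (g.len r) (g.nodup r) hx
  have sx1 := g.span r x hx z1 hz1
  have sx1' := g.span r z1 hz1 x hx
  have sx2 := g.span r x hx z2 hz2
  have sx2' := g.span r z2 hz2 x hx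
  have s12 := g.span r z1 hz1 z2 hz2
  have s12' := g.span r z2 hz2 z1 hz1
  have m1 : (ch u z1 : Vt F N) ∈ T r' u' := (hm _).2 (Or.inl ⟨mem_T.2 ⟨z1, hz1, rfl⟩, fun h =>
    n1 (ch_inj (by omega) (by omega) h)⟩)
  have m2 : (ch u z2 : Vt F N) ∈ T r' u' := (hm _).2 (Or.inl ⟨mem_T.2 ⟨z2, hz2, rfl⟩, fun h =>
    n2 (ch_inj (by omega) (by omega) h)⟩)
  obtain ⟨c1, hc1, hc⟩ := mem_T.1 m1
  obtain ⟨ht, hu⟩ := loc hc
  rw [hu] at m2
  have ms2 := loc2 g hc1 m2 (by omega) (by omega)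
  rcases g.slide r x hx z1 hz1 n1 z2 hz2 n2 n12 r' c1 hc1 ht ms2 with h | h | h | h
  · exfalso
    obtain ⟨hr, hd⟩ := h
    have hT : (T r' u' : Finset (Vt F N)) = T r u := by
      rw [hr, hu, hd]
      simp
    rw [hT] at hv0
    exact hvD hv0
  · left
    unfold nxt
    simp only
    rw [h, ← hu]
  · right
    unfold nxt
    simp only
    rw [h, hu]
    simp only [Prod.mk.injEq, true_and]
    push_cast
    ring
  · exfalso
    obtain ⟨y, hy, hyv⟩ := mem_T.1 hv0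
    rw [hu, ch_shift] at hyv
    have hy1 := g.span r' y hy c1 hc1
    have hy2 := g.span r' c1 hc1 y hy
    have h4 := h y hy (by
      intro h5
      rw [h5] at hyv
      exact hvD (mem_T.2 ⟨z1, hz1, hyv⟩)) (by
      intro h5
      rw [h5] at hyv
      exact hvD (mem_T.2 ⟨z2, hz2, hyv⟩))
    rw [← H_ch (N := N) g (u := u) (by simp only; omega) (by simp only; omega), hyv] at h4
    exact hadj.2.1 h4

lemma slide_iff {r r' : Fin F.c} {u u' : ZMod N} :
    Slide (gr F N) (T r u) (T r' u') ↔ nxt (r, u) = (r', u') ∨ nxt (r', u') = (r, u) := by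
  constructor
  · exact slide_imp g hL hS h6 h2 h3
  · rintro (h | h)
    · have := step g hL hS h6 h2 h3 r u
      unfold nxt at h
      rw [Prod.mk.injEq] at h
      simp only at h
      rw [h.1, h.2] at this
      exact this
    · have := step g hL hS h6 h2 h3 r' u'
      unfold nxt at h
      rw [Prod.mk.injEq] at h
      simp only at h
      rw [h.1, h.2] at this
      exact this.symm (by rw [card_T g hS h3, card_T g hS h3])

lemma isT_of {p q s : ℤ × Fin F.t} {u u2 : ZMod N} {r2 : Fin F.c}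
    (hp : (ch u p : Vt F N) ∈ T r2 u2) (hq : (ch u q : Vt F N) ∈ T r2 u2)
    (hs : (ch u s : Vt F N) ∈ T r2 u2)
    (b1 : q.1 - p.1 + Sp < N) (b2 : p.1 - q.1 + Sp < N)
    (b3 : s.1 - p.1 + Sp < N) (b4 : p.1 - s.1 + Sp < N) : F.isT p q s := by
  obtain ⟨c1, hc1, hc⟩ := mem_T.1 hp
  obtain ⟨ht, hu⟩ := loc hc
  rw [hu] at hq hs
  exact ⟨r2, c1, hc1, ht, loc2 g hc1 hq b1 b2, loc2 g hc1 hs b3 b4⟩

lemma card_le {D : Finset (Vt F N)} (hD : IsIrredundant (gr F N) D) : D.card ≤ 3 := by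
  by_contra hcon
  obtain ⟨E, hE, hEc⟩ := exists_subset_card_eq (show 4 ≤ D.card by omega)
  have hEi : IsIrredundant (gr F N) E := by
    rw [irr_iff g hL h6] at hD ⊢
    intro v hv
    obtain ⟨w, w1, w2⟩ := hD v (hE hv)
    exact ⟨w, w1, fun u hu => w2 u (hE hu)⟩
  have herase : ∀ y ∈ E, ∃ r u, E.erase y = T r u := fun y hy =>
    classify g hL hS h6 h3 (by
      rw [irr_iff g hL h6] at hEi ⊢
      intro v hv
      obtain ⟨w, w1, w2⟩ := hEi v (mem_of_mem_erase hv)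
      exact ⟨w, w1, fun u hu => w2 u (mem_of_mem_erase hu)⟩) (by rw [card_erase_of_mem hy, hEc])
  obtain ⟨x, hx⟩ : E.Nonempty := by
    rw [← card_pos]
    omega
  obtain ⟨r, u, hr⟩ := herase x hx
  have hin : ∀ y, y ∈ (T r u : Finset (Vt F N)) → y ∈ E := fun y hy => by
    rw [← hr] at hy
    exact mem_of_mem_erase hy
  have hxX : x ∉ (T r u : Finset (Vt F N)) := by
    rw [← hr]
    exact notMem_erase x E
  obtain ⟨z3, hz3⟩ : ∃ z3, z3 ∈ F.C r := by
    have := g.len r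
    match hl : F.C r, this with
    | a :: _, _ => exact ⟨a, by simp⟩
  obtain ⟨z1, hz1, z2, hz2, n1, n2, n12, hall⟩ := list3 (g.len r) (g.nodup r) hz3
  have sx1 := g.span r z3 hz3 z1 hz1
  have sx1' := g.span r z1 hz1 z3 hz3
  have sx2 := g.span r z3 hz3 z2 hz2
  have sx2' := g.span r z2 hz2 z3 hz3
  have s12 := g.span r z1 hz1 z2 hz2
  have s12' := g.span r z2 hz2 z1 hz1
  have t1 : (ch u z1 : Vt F N) ∈ T r u := mem_T.2 ⟨z1, hz1, rfl⟩
  have t2 : (ch u z2 : Vt F N) ∈ T r u := mem_T.2 ⟨z2, hz2, rfl⟩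
  have t3 : (ch u z3 : Vt F N) ∈ T r u := mem_T.2 ⟨z3, hz3, rfl⟩
  have d13 : (ch u z1 : Vt F N) ≠ ch u z3 := fun h => n1 (ch_inj (by omega) (by omega) h)
  have d23 : (ch u z2 : Vt F N) ≠ ch u z3 := fun h => n2 (ch_inj (by omega) (by omega) h)
  have d21 : (ch u z2 : Vt F N) ≠ ch u z1 := fun h => n12 (ch_inj (by omega) (by omega) h)
  have hxn : ∀ y, y ∈ (T r u : Finset (Vt F N)) → x ≠ y := fun y hy h => hxX (h ▸ hy)
  -- without `z3`
  obtain ⟨r', u', hr'⟩ := herase _ (hin _ t3)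
  have k1 : (ch u z1 : Vt F N) ∈ T r' u' := by rw [← hr']; exact mem_erase.2 ⟨d13, hin _ t1⟩
  have k2 : (ch u z2 : Vt F N) ∈ T r' u' := by rw [← hr']; exact mem_erase.2 ⟨d23, hin _ t2⟩
  have kx : x ∈ (T r' u' : Finset (Vt F N)) := by rw [← hr']; exact mem_erase.2 ⟨hxn _ t3, hx⟩
  obtain ⟨c1, hc1, hc⟩ := mem_T.1 k1
  obtain ⟨ht, hu⟩ := loc hc
  rw [hu] at k2 kx
  have ms2 := loc2 g hc1 k2 (by omega) (by omega)
  obtain ⟨y, hy, hyx⟩ := mem_T.1 kx
  rw [ch_shift] at hyx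
  have hy1 := g.span r' y hy c1 hc1
  have hy2 := g.span r' c1 hc1 y hy
  -- without `z1`
  obtain ⟨r2, u2, hr2⟩ := herase _ (hin _ t1)
  have l2 : (ch u z2 : Vt F N) ∈ T r2 u2 := by rw [← hr2]; exact mem_erase.2 ⟨d21, hin _ t2⟩
  have l3 : (ch u z3 : Vt F N) ∈ T r2 u2 := by rw [← hr2]; exact mem_erase.2 ⟨d13.symm, hin _ t3⟩
  have lx : x ∈ (T r2 u2 : Finset (Vt F N)) := by rw [← hr2]; exact mem_erase.2 ⟨hxn _ t1, hx⟩
  rw [← hyx] at lx
  have i1 := isT_of g hL hS h6 h2 h3 l2 l3 lx (by omega) (by omega) (by simp only; omega)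
    (by simp only; omega)
  -- without `z2`
  obtain ⟨r3, u3, hr3⟩ := herase _ (hin _ t2)
  have o1 : (ch u z1 : Vt F N) ∈ T r3 u3 := by rw [← hr3]; exact mem_erase.2 ⟨d21.symm, hin _ t1⟩
  have o3 : (ch u z3 : Vt F N) ∈ T r3 u3 := by rw [← hr3]; exact mem_erase.2 ⟨d23.symm, hin _ t3⟩
  have ox : x ∈ (T r3 u3 : Finset (Vt F N)) := by rw [← hr3]; exact mem_erase.2 ⟨hxn _ t2, hx⟩
  rw [← hyx] at ox
  have i2 := isT_of g hL hS h6 h2 h3 o1 o3 ox (by omega) (by omega) (by simp only; omega)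
    (by simp only; omega)
  exact g.four r z1 hz1 z2 hz2 n12 z3 hz3 n1.symm n2.symm r' c1 hc1 ht ms2 y hy
    (fun h => hxX (by rw [← hyx, h]; exact t1)) (fun h => hxX (by rw [← hyx, h]; exact t2))
    (fun h => hxX (by rw [← hyx, h]; exact t3)) ⟨i1, i2⟩

lemma IRNum_eq [NeZero N] (hc : 0 < F.c) : IRNum (gr F N) = 3 := by
  have hT : IsIrredundant (gr F N) (T (⟨0, hc⟩ : Fin F.c) (0 : ZMod N)) := T_irr g hL hS h6 h3 h2 _ _
  apply le_antisymm
  · apply csSup_le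
    · exact ⟨3, T ⟨0, hc⟩ 0, hT, card_T g hS h3 _ _⟩
    · rintro k ⟨D, hD, rfl⟩
      exact card_le g hL hS h6 h2 h3 hD
  · apply le_csSup
    · refine ⟨3, ?_⟩
      rintro k ⟨D, hD, rfl⟩
      exact card_le g hL hS h6 h2 h3 hD
    · exact ⟨T ⟨0, hc⟩ 0, hT, card_T g hS h3 _ _⟩

end

end Pool.Agent.KS6_36.IRC
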